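import Mathlib

open Finset

namespace Pool.Agent.Results.MP_df5386_co.SpreadSlope

/-- A digraph (without loops) on the vertex set `{0, ..., n-1}`: the adjacency relation. -/
structure Dig (n : ℕ) where
  adj : Fin n → Fin n → Prop
  irrefl : ∀ i, ¬ adj i i

open Classical in
/-- The adjacency matrix. -/
noncomputable def A {n : ℕ} (Γ : Dig n) : Matrix (Fin n) (Fin n) ℝ :=
  fun i j => if Γ.adj i j then 1 else 0

/-- The Laplacian `D - A`, where `D` is the diagonal matrix of the out-degrees. -/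
noncomputable def Lap {n : ℕ} (Γ : Dig n) : Matrix (Fin n) (Fin n) ℝ :=
  Matrix.diagonal (fun i => ∑ j, A Γ i j) - A Γ

/-- The values `xᵀ L x` for real unit vectors `x` orthogonal to the all-ones vector. -/
def vals {n : ℕ} (Γ : Dig n) : Set ℝ :=
  {r | ∃ x : Fin n → ℝ, ∑ i, x i = 0 ∧ ∑ i, x i ^ 2 = 1 ∧ r = x ⬝ᵥ (Lap Γ).mulVec x}

/-- `α(Γ)` -/
noncomputable def alpha {n : ℕ} (Γ : Dig n) : ℝ := sInf (vals Γ)

/-- `β(Γ)` -/
noncomputable def beta {n : ℕ} (Γ : Dig n) : ℝ := sSup (vals Γ)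

/-- The Laplacian spread `β(Γ) - α(Γ)`. -/
noncomputable def spread {n : ℕ} (Γ : Dig n) : ℝ := beta Γ - alpha Γ

theorem form_eq {n : ℕ} (Γ : Dig n) (x : Fin n → ℝ) :
    x ⬝ᵥ (Lap Γ).mulVec x = ∑ i, ∑ j, A Γ i j * (x i * (x i - x j)) := by
  simp only [dotProduct, Lap, Matrix.sub_mulVec, Pi.sub_apply, Matrix.mulVec_diagonal]
  refine Finset.sum_congr rfl fun i _ => ?_
  rw [Matrix.mulVec, dotProduct, Finset.sum_mul, ← Finset.sum_sub_distrib, Finset.mul_sum]
  refine Finset.sum_congr rfl fun j _ => ?_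
  ring

theorem vals_bdd {n : ℕ} (Γ : Dig n) : ∃ B : ℝ, ∀ r ∈ vals Γ, |r| ≤ B := by
  refine ⟨∑ _i : Fin n, ∑ _j : Fin n, (2 : ℝ), ?_⟩
  rintro r ⟨x, -, hx, rfl⟩
  have h1 : ∀ i, |x i| ≤ 1 := by
    intro i
    have h2 : x i ^ 2 ≤ 1 := by
      rw [← hx]
      exact Finset.single_le_sum (fun j _ => sq_nonneg (x j)) (Finset.mem_univ i)
    exact abs_le_one_iff_mul_self_le_one.mpr (by nlinarith)
  rw [form_eq]
  refine (Finset.abs_sum_le_sum_abs _ _).trans (Finset.sum_le_sum fun i _ => ?_)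
  refine (Finset.abs_sum_le_sum_abs _ _).trans (Finset.sum_le_sum fun j _ => ?_)
  have hA : |A Γ i j| ≤ 1 := by
    unfold A
    split_ifs <;> simp
  have hd : |x i - x j| ≤ 2 := (abs_sub _ _).trans (by linarith [h1 i, h1 j])
  rw [abs_mul, abs_mul]
  calc |A Γ i j| * (|x i| * |x i - x j|) ≤ 1 * (1 * 2) := by
        gcongr
        · exact h1 i
    _ = 2 := by norm_num

theorem spread_ge {n : ℕ} (Γ : Dig n) {a b : ℝ} (ha : a ∈ vals Γ) (hb : b ∈ vals Γ) :
    b - a ≤ spread Γ := by
  obtain ⟨B, hB⟩ := vals_bdd Γ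
  have h1 : b ≤ beta Γ := le_csSup ⟨B, fun r hr => (abs_le.mp (hB r hr)).2⟩ hb
  have h2 : alpha Γ ≤ a := csInf_le ⟨-B, fun r hr => (abs_le.mp (hB r hr)).1⟩ ha
  unfold spread
  linarith

/-- The arcs of the digraph of order `8` that is blown up. -/
def base : Fin 8 → Fin 8 → Bool :=
  ![![false, true, true, true, true, true, true, true],
    ![false, false, false, false, false, false, false, true],
    ![false, false, false, true, false, false, false, false],
    ![false, false, false, false, false, false, false, false],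
    ![true, true, true, true, false, false, true, true],
    ![true, true, true, true, true, false, true, true],
    ![false, true, true, true, true, true, false, true],
    ![false, false, false, false, false, false, false, false]]

/-- The blow-up of `base` in which every vertex is replaced by `k` independent vertices. -/
def blow (k : ℕ) : Dig (8 * k) where
  adj i j := base (finProdFinEquiv.symm i).1 (finProdFinEquiv.symm j).1 = true
  irrefl i := by
    have : ∀ a, ¬ base a a = true := by decide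
    exact this _

theorem sum_blow (k : ℕ) (f : Fin 8 → ℝ) :
    ∑ i : Fin (8 * k), f (finProdFinEquiv.symm i).1 = k * ∑ a, f a := by
  rw [Equiv.sum_comp finProdFinEquiv.symm (fun p : Fin 8 × Fin k => f p.1),
    Fintype.sum_prod_type, Finset.mul_sum]
  refine Finset.sum_congr rfl fun a _ => ?_
  simp

theorem mem_vals (k : ℕ) (hk : 1 ≤ k) (y : Fin 8 → ℝ) (N Q : ℝ) (h0 : ∑ a, y a = 0)
    (hN : ∑ a, y a ^ 2 = N) (hN0 : 0 < N)
    (hQ : ∑ a, ∑ b, (if base a b = true then (1 : ℝ) else 0) * (y a * (y a - y b)) = Q) :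
    k * (Q / N) ∈ vals (blow k) := by
  have hk0 : (0 : ℝ) < k := by exact_mod_cast hk
  have hkN : (0 : ℝ) < k * N := by positivity
  obtain ⟨s, hs0, hs⟩ : ∃ s : ℝ, 0 < s ∧ s ^ 2 = k * N :=
    ⟨√(k * N), Real.sqrt_pos.mpr hkN, Real.sq_sqrt hkN.le⟩
  refine ⟨fun i => y (finProdFinEquiv.symm i).1 / s, ?_, ?_, ?_⟩
  · rw [sum_blow k (fun a => y a / s), ← Finset.sum_div, h0, zero_div, mul_zero]
  · rw [sum_blow k (fun a => (y a / s) ^ 2)]
    simp only [div_pow, hs]
    rw [← Finset.sum_div, hN]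
    field_simp
  · rw [form_eq]
    have h1 : ∀ i j : Fin (8 * k), A (blow k) i j * (y (finProdFinEquiv.symm i).1 / s *
        (y (finProdFinEquiv.symm i).1 / s - y (finProdFinEquiv.symm j).1 / s)) =
        (fun a b => (if base a b = true then (1 : ℝ) else 0) * (y a * (y a - y b)) / s ^ 2)
          (finProdFinEquiv.symm i).1 (finProdFinEquiv.symm j).1 := by
      intro i j
      by_cases h : base (finProdFinEquiv.symm i).1 (finProdFinEquiv.symm j).1 = true
      · have h1 : A (blow k) i j = 1 := if_pos h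
        rw [h1]
        simp only [h, if_true]
        field_simp
      · have h1 : A (blow k) i j = 0 := if_neg h
        rw [h1]
        simp only [if_neg h, zero_mul, zero_div]
    have h2 : ∀ i : Fin (8 * k), ∑ j : Fin (8 * k), A (blow k) i j *
        (y (finProdFinEquiv.symm i).1 / s *
        (y (finProdFinEquiv.symm i).1 / s - y (finProdFinEquiv.symm j).1 / s)) =
        (fun a => k * ∑ b, (if base a b = true then (1 : ℝ) else 0) * (y a * (y a - y b)) /
          s ^ 2) (finProdFinEquiv.symm i).1 := by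
      intro i
      rw [Finset.sum_congr rfl fun j _ => h1 i j]
      exact sum_blow k (fun b => (if base (finProdFinEquiv.symm i).1 b = true then (1 : ℝ) else 0) *
        (y (finProdFinEquiv.symm i).1 * (y (finProdFinEquiv.symm i).1 - y b)) / s ^ 2)
    rw [Finset.sum_congr rfl fun i _ => h2 i,
      sum_blow k (fun a => k * ∑ b, (if base a b = true then (1 : ℝ) else 0) *
        (y a * (y a - y b)) / s ^ 2)]
    simp only [← Finset.sum_div, ← Finset.mul_sum]
    rw [hQ, hs]
    field_simp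

theorem r_sq : (1 + √2) ^ 2 = 2 * (1 + √2) + 1 := by
  have h : √2 ^ 2 = 2 := Real.sq_sqrt (by norm_num)
  nlinarith

/-- For every `k ≥ 1` there is a digraph of order `8 k` with Laplacian spread at least
`(7 + √2) k = (1 + (√2 - 1) / 8) * (8 k)`. In particular no absolute constant `C` satisfies
`s(Γ) ≤ n + C` for all digraphs `Γ` of all orders `n ≥ 2`. -/
theorem result :
    (∀ k : ℕ, 1 ≤ k → ∃ Γ : Dig (8 * k), (1 + (√2 - 1) / 8) * ((8 * k : ℕ) : ℝ) ≤ spread Γ) ∧
    ¬ ∃ C : ℝ, ∀ n : ℕ, 2 ≤ n → ∀ Γ : Dig n, spread Γ ≤ n + C := by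
  have main : ∀ k : ℕ, 1 ≤ k →
      ∃ Γ : Dig (8 * k), (1 + (√2 - 1) / 8) * ((8 * k : ℕ) : ℝ) ≤ spread Γ := by
    intro k hk
    refine ⟨blow k, ?_⟩
    have hr := r_sq
    have hr0 : 0 < 1 + √2 := by positivity
    set r : ℝ := 1 + √2 with hrdef
    have hb : (k : ℝ) * ((16 * r ^ 2 + 14 + 2 * r) / (2 * r ^ 2 + 2)) ∈ vals (blow k) := by
      refine mem_vals k hk ![r, 0, 0, 0, -1, -r, 1, 0] _ _ ?_ ?_ (by positivity) ?_
      · simp [Fin.sum_univ_eight]
      · simp [Fin.sum_univ_eight]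
        ring
      · simp [Fin.sum_univ_eight, base]
        ring
    have ha : (k : ℝ) * ((2 - 2 * r) / (2 * r ^ 2 + 2)) ∈ vals (blow k) := by
      refine mem_vals k hk ![0, 1, -1, -r, 0, 0, 0, r] _ _ ?_ ?_ (by positivity) ?_
      · simp [Fin.sum_univ_eight]
      · simp [Fin.sum_univ_eight]
        ring
      · simp [Fin.sum_univ_eight, base]
        ring
    have h1 := spread_ge (blow k) ha hb
    refine le_trans (le_of_eq ?_) h1
    have h2 : √2 = r - 1 := by rw [hrdef]; ring
    have h3 : (2 * r ^ 2 + 2) ≠ 0 := by positivity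
    rw [h2]
    push_cast
    field_simp
    nlinarith [hr]
  refine ⟨main, ?_⟩
  rintro ⟨C, hC⟩
  have hs : 1 < √2 := by
    rw [show (1 : ℝ) = √1 by simp]
    exact Real.sqrt_lt_sqrt (by norm_num) (by norm_num)
  obtain ⟨k, hk⟩ := exists_nat_gt (C / (√2 - 1))
  obtain ⟨Γ, hΓ⟩ := main (k + 1) (by omega)
  have h1 := hC (8 * (k + 1)) (by omega) Γ
  rw [div_lt_iff₀ (by linarith)] at hk
  push_cast at h1 hΓ
  nlinarith

end Pool.Agent.Results.MP_df5386_co.SpreadSlope
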